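import Pool.Agent.Lib.MP_7dd29b_gt.H42Riem

/-!
A Minkowski norm in dimension at least three whose Hessian metric has vanishing Riemann tensor is
Euclidean.
-/

namespace Pool.Agent.Lib.MP_7dd29b_gt.Variants.FlatEuclidean

open Pool.Agent.Lib.MP_7dd29b_gt.Riem Matrix
open scoped ContDiff

theorem result (n : ℕ) (hn : 3 ≤ n) (F : (Fin n → ℝ) → ℝ) (smooth : ContDiffOn ℝ ∞ F {0}ᶜ)
    (pos : ∀ y, y ≠ 0 → 0 < F y) (homog : ∀ t : ℝ, 0 < t → ∀ y, F (t • y) = t * F y)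
    (posDef : ∀ y, y ≠ 0 → (hessMetric F y).PosDef)
    (flat : ∀ y, y ≠ 0 → ∀ l i j k, riemann (hessMetric F) l i j k y = 0) :
    ∃ A : Matrix (Fin n) (Fin n) ℝ, A.IsSymm ∧ (∀ y, y ≠ 0 → 0 < (A *ᵥ y) ⬝ᵥ y) ∧
      ∀ y, F y = √((A *ᵥ y) ⬝ᵥ y) := by
  obtain ⟨A, hA, h⟩ := euclidean_of_flat hn F smooth pos homog posDef flat
  refine ⟨A, by simpa [Matrix.IsSymm, Matrix.IsHermitian] using hA.isHermitian, fun y hy => ?_, fun y => ?_⟩
  · rw [dotProduct_comm]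
    simpa using hA.dotProduct_mulVec_pos hy
  · rw [h, dotProduct_comm]

end Pool.Agent.Lib.MP_7dd29b_gt.Variants.FlatEuclidean
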